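import Mathlib

/-!
Definitions for the strong rank condition of Ore extensions.
-/

namespace Pool.Agent.Ore

/-- The right strong rank condition: for no `n ≥ 1` is there an injective homomorphism of right
`A`-modules `A^(n+1) → A^n`.  Right `A`-modules are modules over the opposite ring `Aᵐᵒᵖ`, and
`Fin k → A` carries the right multiplication in each coordinate. -/
def RSRC (A : Type*) [Ring A] : Prop :=
  ∀ n : ℕ, 1 ≤ n →
    ¬ ∃ f : (Fin (n + 1) → A) →ₗ[Aᵐᵒᵖ] (Fin n → A), Function.Injective f

/-- `δ` is a `σ`-derivation of `R`. -/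
structure IsSkewDerivation {R : Type*} [Ring R] (σ : R →+* R) (δ : R → R) : Prop where
  add : ∀ r s, δ (r + s) = δ r + δ s
  mul : ∀ r s, δ (r * s) = δ r * s + σ r * δ s

/-- `A`, with the ring homomorphism `ι : R → A` and the element `x`, is the Ore extension
`R[x; σ, δ]`: one has `x r = σ(r) x + δ(r)` for `r` in `R`, and every element of `A` is uniquely
a polynomial `∑ rᵢ xⁱ` with coefficients in `R` written on the left. -/
structure IsOreExtension {R A : Type*} [Ring R] [Ring A] (σ : R →+* R) (δ : R → R)
    (ι : R →+* A) (x : A) : Prop where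
  comm : ∀ r, x * ι r = ι (σ r) * x + ι (δ r)
  basis : ∀ a : A, ∃! c : ℕ →₀ R, a = c.sum fun i r => ι r * x ^ i

end Pool.Agent.Ore
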