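import Pool.Agent.Ore.Defs

/-!
Existence of the Ore extension `R[x; σ, δ]`.
-/

open Finset

namespace Pool.Agent.Ore

universe u

variable {R : Type u} [Ring R]

/-- left multiplication by `r` on polynomials. -/
noncomputable def L (r : R) : AddMonoid.End (ℕ →₀ R) :=
  Finsupp.mapRange.addMonoidHom (AddMonoidHom.mulLeft r)

lemma L_single (r a : R) (i : ℕ) :
    L r (Finsupp.single i a) = Finsupp.single i (r * a) := by
  have h1 : (Finsupp.mapRange.addMonoidHom (AddMonoidHom.mulLeft r) : (ℕ →₀ R) →+ (ℕ →₀ R))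
      (Finsupp.single i a) = Finsupp.single i (r * a) := by
    rw [Finsupp.mapRange.addMonoidHom_apply, Finsupp.mapRange_single]
    rfl
  exact h1

lemma ext_end {f g : AddMonoid.End (ℕ →₀ R)}
    (h : ∀ i a, f (Finsupp.single i a) = g (Finsupp.single i a)) : f = g :=
  Finsupp.addHom_ext h

lemma mul_app (f g : AddMonoid.End (ℕ →₀ R)) (p : ℕ →₀ R) : (f * g) p = f (g p) := rfl

lemma add_app (f g : AddMonoid.End (ℕ →₀ R)) (p : ℕ →₀ R) : (f + g) p = f p + g p := rfl

/-- a skew derivation as an additive map. -/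
def IsSkewDerivation.hom {σ : R →+* R} {δ : R → R} (h : IsSkewDerivation σ δ) : R →+ R where
  toFun := δ
  map_zero' := by
    have := h.add 0 0
    simpa using this
  map_add' := h.add

lemma IsSkewDerivation.map_one {σ : R →+* R} {δ : R → R} (h : IsSkewDerivation σ δ) :
    δ 1 = 0 := by
  have := h.mul 1 1
  simpa using this

/-- the operator `x` on polynomials. -/
noncomputable def X {σ : R →+* R} {δ : R → R} (h : IsSkewDerivation σ δ) :
    AddMonoid.End (ℕ →₀ R) :=
  Finsupp.liftAddHom fun i =>
    ((Finsupp.singleAddHom (i + 1)).comp σ.toAddMonoidHom) + (Finsupp.singleAddHom i).comp h.hom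

lemma X_single {σ : R →+* R} {δ : R → R} (h : IsSkewDerivation σ δ) (a : R) (i : ℕ) :
    X h (Finsupp.single i a) = Finsupp.single (i + 1) (σ a) + Finsupp.single i (δ a) := by
  have h1 : (Finsupp.liftAddHom (fun i =>
      ((Finsupp.singleAddHom (i + 1)).comp σ.toAddMonoidHom) +
        (Finsupp.singleAddHom i).comp h.hom) : (ℕ →₀ R) →+ (ℕ →₀ R))
      (Finsupp.single i a) = Finsupp.single (i + 1) (σ a) + Finsupp.single i (δ a) := by
    rw [Finsupp.liftAddHom_apply_single]
    rfl
  exact h1

lemma L_mul (r s : R) : L (r * s) = L r * L s := by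
  refine ext_end fun i a => ?_
  rw [mul_app, L_single, L_single, L_single, mul_assoc]

lemma L_add (r s : R) : L (r + s) = L r + L s := by
  refine ext_end fun i a => ?_
  rw [add_app, L_single, L_single, L_single, add_mul, Finsupp.single_add]

lemma L_one : L (1 : R) = 1 := by
  refine ext_end fun i a => ?_
  rw [L_single, one_mul]
  rfl

lemma L_zero : L (0 : R) = 0 := by
  refine ext_end fun i a => ?_
  rw [L_single, zero_mul, Finsupp.single_zero]
  rfl

lemma X_L {σ : R →+* R} {δ : R → R} (h : IsSkewDerivation σ δ) (r : R) :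
    X h * L r = L (σ r) * X h + L (δ r) := by
  refine ext_end fun i a => ?_
  rw [add_app, mul_app, mul_app, L_single, X_single, X_single, map_add, L_single, L_single,
    L_single, map_mul, h.mul, Finsupp.single_add]
  abel

/-- the operator attached to a polynomial. -/
noncomputable def op {σ : R →+* R} {δ : R → R} (h : IsSkewDerivation σ δ) (c : ℕ →₀ R) :
    AddMonoid.End (ℕ →₀ R) :=
  c.sum fun i r => L r * X h ^ i

variable {σ : R →+* R} {δ : R → R} (h : IsSkewDerivation σ δ)

lemma op_add (c d : ℕ →₀ R) : op h (c + d) = op h c + op h d := by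
  classical
  unfold op
  rw [Finsupp.sum_add_index']
  · intro i; rw [L_zero, zero_mul]
  · intro i r s; rw [L_add, add_mul]

lemma op_single (i : ℕ) (r : R) : op h (Finsupp.single i r) = L r * X h ^ i := by
  unfold op
  rw [Finsupp.sum_single_index]
  rw [L_zero, zero_mul]

lemma op_zero : op h 0 = 0 := by
  simp [op]

lemma L_mul_op (r : R) (c : ℕ →₀ R) : ∃ d, L r * op h c = op h d := by
  induction c using Finsupp.induction_linear with
  | zero => exact ⟨0, by rw [op_zero, mul_zero]⟩
  | add c d hc hd =>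
    obtain ⟨c', hc'⟩ := hc
    obtain ⟨d', hd'⟩ := hd
    exact ⟨c' + d', by rw [op_add, op_add, mul_add, hc', hd']⟩
  | single i s =>
    exact ⟨Finsupp.single i (r * s), by rw [op_single, op_single, L_mul, mul_assoc]⟩

lemma X_mul_op (c : ℕ →₀ R) : ∃ d, X h * op h c = op h d := by
  induction c using Finsupp.induction_linear with
  | zero => exact ⟨0, by rw [op_zero, mul_zero]⟩
  | add c d hc hd =>
    obtain ⟨c', hc'⟩ := hc
    obtain ⟨d', hd'⟩ := hd
    exact ⟨c' + d', by rw [op_add, op_add, mul_add, hc', hd']⟩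
  | single i s =>
    refine ⟨Finsupp.single (i + 1) (σ s) + Finsupp.single i (δ s), ?_⟩
    rw [op_add, op_single, op_single, op_single, ← mul_assoc, X_L, add_mul, pow_succ', mul_assoc]

lemma X_pow_mul_op (i : ℕ) : ∀ c : ℕ →₀ R, ∃ d, X h ^ i * op h c = op h d := by
  induction i with
  | zero => intro c; exact ⟨c, by rw [pow_zero, one_mul]⟩
  | succ i ih =>
    intro c
    obtain ⟨d, hd⟩ := X_mul_op h c
    obtain ⟨e, he⟩ := ih d
    exact ⟨e, by rw [pow_succ, mul_assoc, hd, he]⟩

lemma op_mul_op (c d : ℕ →₀ R) : ∃ e, op h c * op h d = op h e := by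
  induction c using Finsupp.induction_linear with
  | zero => exact ⟨0, by rw [op_zero, zero_mul]⟩
  | add c c' hc hc' =>
    obtain ⟨e, he⟩ := hc
    obtain ⟨e', he'⟩ := hc'
    exact ⟨e + e', by rw [op_add, op_add, add_mul, he, he']⟩
  | single i s =>
    obtain ⟨e, he⟩ := X_pow_mul_op h i d
    obtain ⟨e', he'⟩ := L_mul_op h s e
    exact ⟨e', by rw [op_single, mul_assoc, he, he']⟩

lemma X_pow_one (i : ℕ) : (X h ^ i) (Finsupp.single 0 1) = Finsupp.single i 1 := by
  induction i with
  | zero => rfl
  | succ i ih =>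
    rw [pow_succ', mul_app, ih, X_single, h.map_one, map_one, Finsupp.single_zero, add_zero]

lemma op_apply_one (c : ℕ →₀ R) : op h c (Finsupp.single 0 1) = c := by
  induction c using Finsupp.induction_linear with
  | zero => rw [op_zero]; rfl
  | add c d hc hd =>
    rw [op_add, add_app, hc, hd]
  | single i s =>
    rw [op_single, mul_app, X_pow_one, L_single, mul_one]

/-- the Ore extension as a ring of operators. -/
noncomputable def oreSubring : Subring (AddMonoid.End (ℕ →₀ R)) where
  carrier := {φ | ∃ c, φ = op h c}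
  mul_mem' := by
    rintro _ _ ⟨c, rfl⟩ ⟨d, rfl⟩
    exact op_mul_op h c d
  one_mem' := ⟨Finsupp.single 0 1, by rw [op_single, L_one, pow_zero, mul_one]⟩
  add_mem' := by
    rintro _ _ ⟨c, rfl⟩ ⟨d, rfl⟩
    exact ⟨c + d, (op_add h c d).symm⟩
  zero_mem' := ⟨0, (op_zero h).symm⟩
  neg_mem' := by
    rintro _ ⟨c, rfl⟩
    refine ⟨-c, ?_⟩
    have h1 : op h (-c) + op h c = 0 := by
      rw [← op_add, neg_add_cancel, op_zero]
    exact (eq_neg_of_add_eq_zero_left h1).symm

include h in
theorem exists_isOreExtension : ∃ (A : Type u) (_ : Ring A) (ι : R →+* A) (x : A),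
    IsOreExtension σ δ ι x := by
  refine ⟨oreSubring h, inferInstance,
    { toFun := fun r => ⟨L r, ⟨Finsupp.single 0 r, by rw [op_single, pow_zero, mul_one]⟩⟩
      map_one' := Subtype.ext L_one
      map_mul' := fun r s => Subtype.ext (L_mul r s)
      map_zero' := Subtype.ext L_zero
      map_add' := fun r s => Subtype.ext (L_add r s) },
    ⟨X h, ⟨Finsupp.single 1 1, by rw [op_single, pow_one, L_one, one_mul]⟩⟩, ?_, ?_⟩
  · intro r
    exact Subtype.ext (X_L h r)
  · rintro ⟨_, c, rfl⟩
    have key : ∀ d : ℕ →₀ R, ((d.sum fun i r =>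
        (⟨L r, ⟨Finsupp.single 0 r, by rw [op_single, pow_zero, mul_one]⟩⟩ : oreSubring h) *
        (⟨X h, ⟨Finsupp.single 1 1, by rw [op_single, pow_one, L_one, one_mul]⟩⟩ :
          oreSubring h) ^ i : oreSubring h) : AddMonoid.End (ℕ →₀ R)) = op h d := by
      intro d
      unfold op Finsupp.sum
      rw [AddSubmonoidClass.coe_finsetSum]
      rfl
    refine ⟨c, Subtype.ext (key c).symm, ?_⟩
    intro d hd
    have h1 : op h c = op h d := by
      have h2 := congrArg Subtype.val hd
      exact h2.trans (key d)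
    rw [← op_apply_one h c, ← op_apply_one h d, h1]

end Pool.Agent.Ore
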