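import Pool.Agent.Ore.Defs

/-!
RSRC passes to Ore extensions with surjective twist.
-/

open Finset

namespace Pool.Agent.Ore

variable {R A : Type*} [Ring R] [Ring A]

/-- Elements `∑_{s ≤ D} xˢ r_s` with coefficients on the right. -/
def Filt (ι : R →+* A) (x : A) (D : ℕ) (a : A) : Prop :=
  ∃ c : ℕ → R, a = ∑ s ∈ range (D + 1), x ^ s * ι (c s)

section filt

variable {σ : R →+* R} {δ : R → R} {ι : R →+* A} {x : A}

lemma Filt.add {D : ℕ} {a b : A} (ha : Filt ι x D a) (hb : Filt ι x D b) :
    Filt ι x D (a + b) := by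
  obtain ⟨c, rfl⟩ := ha
  obtain ⟨d, rfl⟩ := hb
  refine ⟨fun s => c s + d s, ?_⟩
  rw [← sum_add_distrib]
  refine sum_congr rfl fun s _ => ?_
  rw [map_add, mul_add]

lemma Filt.zero (D : ℕ) : Filt ι x D (0 : A) :=
  ⟨fun _ => 0, by simp⟩

lemma Filt.sum {κ : Type*} {D : ℕ} (S : Finset κ) (f : κ → A)
    (h : ∀ k ∈ S, Filt ι x D (f k)) : Filt ι x D (∑ k ∈ S, f k) := by
  classical
  induction S using Finset.induction_on with
  | empty => simpa using Filt.zero D
  | insert a S ha ih =>
    rw [sum_insert ha]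
    exact (h a (mem_insert_self _ _)).add (ih fun k hk => h k (mem_insert_of_mem hk))

lemma Filt.monomial {D s : ℕ} (hs : s ≤ D) (r : R) : Filt ι x D (x ^ s * ι r) := by
  refine ⟨fun t => if t = s then r else 0, ?_⟩
  rw [sum_eq_single_of_mem s (mem_range.2 (by omega))]
  · simp
  · intro t _ ht
    simp [ht]

lemma Filt.mono {D E : ℕ} (h : D ≤ E) {a : A} (ha : Filt ι x D a) : Filt ι x E a := by
  obtain ⟨c, rfl⟩ := ha
  exact Filt.sum _ _ fun s hs => Filt.monomial (by have := mem_range.1 hs; omega) _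

lemma Filt.mul_right {D : ℕ} {a : A} (ha : Filt ι x D a) (r : R) : Filt ι x D (a * ι r) := by
  obtain ⟨c, rfl⟩ := ha
  refine ⟨fun s => c s * r, ?_⟩
  rw [sum_mul]
  refine sum_congr rfl fun s _ => ?_
  rw [map_mul, mul_assoc]

lemma Filt.x_pow_mul {D i : ℕ} {a : A} (ha : Filt ι x D a) : Filt ι x (i + D) (x ^ i * a) := by
  obtain ⟨c, rfl⟩ := ha
  rw [mul_sum]
  refine Filt.sum _ _ fun s hs => ?_
  rw [← mul_assoc, ← pow_add]
  exact Filt.monomial (by have := mem_range.1 hs; omega) _

lemma Filt.const_mul_pow (hσ : Function.Surjective σ) (hc : ∀ r, x * ι r = ι (σ r) * x + ι (δ r))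
    (j : ℕ) : ∀ r : R, Filt ι x j (ι r * x ^ j) := by
  induction j with
  | zero =>
    intro r
    have := Filt.monomial (ι := ι) (x := x) (le_refl 0) r
    simpa using this
  | succ j ih =>
    intro r
    obtain ⟨r', rfl⟩ := hσ r
    have h1 : ι (σ r') * x ^ (j + 1) = x ^ 1 * (ι r' * x ^ j) + - (ι (δ r') * x ^ j) := by
      have h2 : ι (σ r') * x = x * ι r' - ι (δ r') := by rw [hc r']; abel
      rw [pow_succ', ← mul_assoc, h2, pow_one]
      noncomm_ring
    rw [h1]
    refine Filt.add ?_ ?_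
    · have := (ih r').x_pow_mul (i := 1)
      rwa [add_comm] at this
    · have := (ih (- (δ r'))).mono (Nat.le_succ j)
      rwa [map_neg, neg_mul] at this

lemma Filt.mul (hσ : Function.Surjective σ) (hc : ∀ r, x * ι r = ι (σ r) * x + ι (δ r))
    {D E : ℕ} {a b : A} (ha : Filt ι x D a) (hb : Filt ι x E b) : Filt ι x (D + E) (a * b) := by
  obtain ⟨c, rfl⟩ := ha
  obtain ⟨d, rfl⟩ := hb
  rw [sum_mul]
  refine Filt.sum _ _ fun s hs => ?_
  rw [mul_sum]
  refine Filt.sum _ _ fun t ht => ?_
  have h1 : x ^ s * ι (c s) * (x ^ t * ι (d t)) = x ^ s * (ι (c s) * x ^ t * ι (d t)) := by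
    simp only [mul_assoc]
  rw [h1]
  have h2 := ((Filt.const_mul_pow hσ hc t (c s)).mul_right (d t)).x_pow_mul (i := s)
  exact h2.mono (by have := mem_range.1 hs; have := mem_range.1 ht; omega)

lemma exists_filt (hσ : Function.Surjective σ) (h : IsOreExtension σ δ ι x) (a : A) :
    ∃ D, Filt ι x D a := by
  obtain ⟨c, hc, -⟩ := h.basis a
  refine ⟨c.support.sup id, ?_⟩
  rw [hc, Finsupp.sum]
  refine Filt.sum _ _ fun i hi => ?_
  exact (Filt.const_mul_pow hσ h.comm i _).mono (Finset.le_sup (f := id) hi)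

lemma ι_injective (h : IsOreExtension σ δ ι x) {r : R} (hr : ι r = 0) : r = 0 := by
  obtain ⟨c, -, hu⟩ := h.basis 0
  have h1 : Finsupp.single 0 r = c := by
    apply hu
    simp [hr]
  have h2 : (0 : ℕ →₀ R) = c := by
    apply hu
    simp
  have h3 := h1.trans h2.symm
  simpa using h3

end filt

/-- A (rectangular) matrix is injective on column vectors. -/
def InjMat {β α : Type*} [Fintype α] (M : β → α → A) : Prop :=
  ∀ v : α → A, (∀ b, ∑ a, M b a * v a = 0) → v = 0

lemma InjMat.prod {β α : Type*} [Fintype α] [Fintype β] {M : β → α → A} (hM : InjMat M)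
    {n m : ℕ} {N : Fin n → Fin m → A} (hN : InjMat N) :
    InjMat (fun (p : β × Fin n) (q : α × Fin m) => N p.2 q.2 * M p.1 q.1) := by
  intro v hv
  have h1 : ∀ b, (fun j : Fin m => ∑ a, M b a * v (a, j)) = 0 := by
    intro b
    apply hN
    intro i
    have := hv (b, i)
    rw [← this, Fintype.sum_prod_type_right]
    refine sum_congr rfl fun j _ => ?_
    rw [mul_sum]
    refine sum_congr rfl fun a _ => ?_
    simp only [mul_assoc]
  have h2 : ∀ j, (fun a => v (a, j)) = 0 := by
    intro j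
    apply hM
    intro b
    exact congrFun (h1 b) j
  funext p
  exact congrFun (h2 p.2) p.1

/-- Tree composition. -/
lemma exists_tower {σ : R →+* R} {δ : R → R} {ι : R →+* A} {x : A}
    (hσ : Function.Surjective σ) (hc : ∀ r, x * ι r = ι (σ r) * x + ι (δ r))
    {n m d : ℕ} {N : Fin n → Fin m → A} (hN : InjMat N) (hd : ∀ i j, Filt ι x d (N i j))
    (L : ℕ) : ∃ (β α : Type) (_ : Fintype β) (_ : Fintype α) (M : β → α → A),
      Fintype.card β = n ^ L ∧ Fintype.card α = m ^ L ∧ InjMat M ∧
      ∀ b a, Filt ι x (L * d) (M b a) := by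
  induction L with
  | zero =>
    refine ⟨Unit, Unit, inferInstance, inferInstance, fun _ _ => 1, by simp, by simp, ?_, ?_⟩
    · intro v hv
      funext u
      have := hv ()
      simpa using this
    · intro _ _
      have := Filt.monomial (ι := ι) (x := x) (D := 0 * d) (Nat.zero_le _) (1 : R)
      simpa using this
  | succ L ih =>
    obtain ⟨β, α, hβ, hα, M, cβ, cα, hM, hf⟩ := ih
    refine ⟨β × Fin n, α × Fin m, inferInstance, inferInstance,
      fun p q => N p.2 q.2 * M p.1 q.1, ?_, ?_, hM.prod hN, ?_⟩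
    · rw [Fintype.card_prod, cβ, Fintype.card_fin, pow_succ]
    · rw [Fintype.card_prod, cα, Fintype.card_fin, pow_succ]
    · intro p q
      have := Filt.mul hσ hc (hd p.2 q.2) (hf p.1 q.1)
      exact this.mono (by ring_nf; exact le_refl _)

lemma exists_big (n d : ℕ) : ∃ L : ℕ, n ^ L * (L * d + 1) < (n + 1) ^ L := by
  have h0 : (0 : ℝ) ≤ (n : ℝ) / (n + 1) := by positivity
  have h1 : (n : ℝ) / (n + 1) < 1 := by
    rw [div_lt_one (by positivity)]; linarith
  have h2 := tendsto_self_mul_const_pow_of_lt_one h0 h1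
  have h3 := tendsto_pow_atTop_nhds_zero_of_lt_one h0 h1
  have h4 : Filter.Tendsto (fun L : ℕ => (d : ℝ) * ((L : ℝ) * ((n : ℝ) / (n + 1)) ^ L) +
      ((n : ℝ) / (n + 1)) ^ L) Filter.atTop (nhds ((d : ℝ) * 0 + 0)) :=
    (h2.const_mul _).add h3
  rw [mul_zero, add_zero] at h4
  obtain ⟨L, hL⟩ := (h4.eventually (gt_mem_nhds (show (0 : ℝ) < 1 by norm_num))).exists
  refine ⟨L, ?_⟩
  have h5 : (0 : ℝ) < ((n : ℝ) + 1) ^ L := by positivity
  have h6 : (n : ℝ) ^ L * (L * d + 1) < ((n : ℝ) + 1) ^ L := by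
    have h7 : (d : ℝ) * ((L : ℝ) * ((n : ℝ) / (n + 1)) ^ L) + ((n : ℝ) / (n + 1)) ^ L
        = ((n : ℝ) ^ L * (L * d + 1)) / ((n : ℝ) + 1) ^ L := by
      rw [div_pow]; field_simp
    rw [h7, div_lt_one h5] at hL
    exact hL
  exact_mod_cast h6

/-- An injective matrix over `R` with more columns than rows refutes RSRC. -/
lemma not_rsrc_of_injMat {β α : Type} [Fintype β] [Fintype α] (M : β → α → R) (hM : InjMat M)
    (hcard : Fintype.card β < Fintype.card α) (hpos : 1 ≤ Fintype.card β) : ¬ RSRC R := by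
  classical
  intro h
  obtain ⟨e⟩ : Nonempty (Fin (Fintype.card β + 1) ↪ α) :=
    Function.Embedding.nonempty_of_card_le (by simpa using hcard)
  let g : Fin (Fintype.card β) ≃ β := (Fintype.equivFin β).symm
  let f : (Fin (Fintype.card β + 1) → R) →ₗ[Rᵐᵒᵖ] (Fin (Fintype.card β) → R) :=
    { toFun := fun u k => ∑ j, M (g k) (e j) * u j
      map_add' := by
        intro u v
        funext k
        simp only [Pi.add_apply, mul_add, sum_add_distrib]
      map_smul' := by
        intro r u
        funext k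
        simp only [Pi.smul_apply, RingHom.id_apply, MulOpposite.smul_eq_mul_unop, sum_mul,
          mul_assoc] }
  refine h _ hpos ⟨f, ?_⟩
  rw [injective_iff_map_eq_zero]
  intro u hu
  let v : α → R := fun a => ∑ j, if e j = a then u j else 0
  have hv : v = 0 := by
    apply hM
    intro b
    have h1 := congrFun hu (g.symm b)
    have h2 : ∑ j, M b (e j) * u j = 0 := by
      have h3 : f u (g.symm b) = ∑ j, M (g (g.symm b)) (e j) * u j := rfl
      rw [h3, Equiv.apply_symm_apply] at h1
      exact h1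
    rw [← h2]
    simp only [v, mul_sum]
    rw [sum_comm]
    refine sum_congr rfl fun j _ => ?_
    rw [sum_eq_single_of_mem (e j) (mem_univ _)]
    · simp
    · intro a _ ha
      simp [Ne.symm ha]
  funext j
  have h4 := congrFun hv (e j)
  simp only [v, Pi.zero_apply] at h4
  rw [sum_eq_single_of_mem j (mem_univ _)] at h4
  · simpa using h4
  · intro k _ hk
    rw [if_neg]
    intro h5
    exact hk (e.injective h5)

theorem rsrc_of_isOreExtension {σ : R →+* R} {δ : R → R} {ι : R →+* A} {x : A}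
    (hσ : Function.Surjective σ) (h : IsOreExtension σ δ ι x) (hR : RSRC R) : RSRC A := by
  classical
  rintro n hn ⟨f, hf⟩
  let N : Fin n → Fin (n + 1) → A := fun i j => f (Pi.single j 1) i
  have hfN : ∀ v i, f v i = ∑ j, N i j * v j := by
    intro v i
    have h1 : v = ∑ j, MulOpposite.op (v j) • (Pi.single j 1 : Fin (n + 1) → A) := by
      funext k
      rw [Finset.sum_apply, sum_eq_single_of_mem k (mem_univ _)]
      · simp
      · intro j _ hj
        simp [Ne.symm hj]
    conv_lhs => rw [h1]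
    rw [map_sum, Finset.sum_apply]
    refine sum_congr rfl fun j _ => ?_
    rw [map_smul]
    simp [N]
  have hN : InjMat N := by
    intro v hv
    apply hf
    rw [map_zero]
    funext i
    rw [hfN, hv]
    rfl
  have hd : ∃ d, ∀ i j, Filt ι x d (N i j) := by
    choose D hD using fun i j => exists_filt hσ h (N i j)
    refine ⟨univ.sup fun i => univ.sup fun j => D i j, fun i j => (hD i j).mono ?_⟩
    exact le_trans (Finset.le_sup (f := fun j => D i j) (mem_univ j))
      (Finset.le_sup (f := fun i => univ.sup fun j => D i j) (mem_univ i))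
  obtain ⟨d, hd⟩ := hd
  obtain ⟨L, hL⟩ := exists_big n d
  obtain ⟨β, α, hβ, hα, M, cβ, cα, hM, hF⟩ := exists_tower hσ h.comm hN hd L
  choose c hc using hF
  let G : β × Fin (L * d + 1) → α → R := fun p a => c p.1 a p.2
  refine not_rsrc_of_injMat G ?_ ?_ ?_ hR
  · intro u hu
    have h1 : (fun a => ι (u a)) = 0 := by
      apply hM
      intro b
      have h2 : ∀ a, M b a * ι (u a) =
          ∑ s : Fin (L * d + 1), x ^ (s : ℕ) * ι (c b a s * u a) := by
        intro a
        rw [hc b a, sum_mul, Finset.sum_range]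
        refine sum_congr rfl fun s _ => ?_
        rw [map_mul, mul_assoc]
      rw [sum_congr rfl fun a _ => h2 a, sum_comm]
      refine sum_eq_zero fun s _ => ?_
      rw [← mul_sum, ← map_sum]
      have h3 := hu (b, s)
      simp only [G] at h3
      rw [h3, map_zero, mul_zero]
    funext a
    exact ι_injective h (congrFun h1 a)
  · rw [Fintype.card_prod, cβ, cα, Fintype.card_fin]
    exact hL
  · rw [Fintype.card_prod, cβ, Fintype.card_fin]
    exact Nat.one_le_iff_ne_zero.2 (by positivity)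

end Pool.Agent.Ore
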